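import Pool.Agent.LeoT.Stmts
import Pool.Agent.LeoD.LocStmts
import Pool.Agent.Helper9_LeoC.Kcc
import Pool.Agent.Helper21_LeoC.Box

/-!
# Squad LEOT, module KCR: the count with a residue condition
-/

set_option autoImplicit false

open NumberField NumberField.InfinitePlace NumberField.mixedEmbedding IsDedekindDomain WithZero
  Module Filter Topology
open Pool.Agent.Helper85_Leo Pool.Agent.Leo3 Pool.Agent.LeoK Pool.Agent.LeoG Pool.Agent.LeoC

open scoped Classical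

namespace Pool.Agent.LeoT.H65

variable {k : Type} [Field k] [NumberField k]

theorem five_le_np (p : HeightOneSpectrum (𝓞 k)) (h6 : (6 : 𝓞 k) ∉ p.asIdeal) :
    (5 : ℝ) ≤ np p := by
  have hm : ((Ideal.absNorm p.asIdeal : ℕ) : 𝓞 k) ∈ p.asIdeal := Ideal.absNorm_mem _
  have h2 : (2 : 𝓞 k) ∉ p.asIdeal := by
    intro h
    apply h6
    have h3 : (6 : 𝓞 k) = 3 * 2 := by norm_num
    rw [h3]
    exact p.asIdeal.mul_mem_left _ h
  have h5 : 5 ≤ Ideal.absNorm p.asIdeal := by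
    by_contra hc
    rw [not_le] at hc
    obtain ⟨n, hn⟩ : ∃ n : ℕ, Ideal.absNorm p.asIdeal = n := ⟨_, rfl⟩
    rw [hn] at hm hc
    interval_cases n
    · rw [Ideal.absNorm_eq_zero_iff] at hn
      exact p.ne_bot hn
    · rw [Ideal.absNorm_eq_one_iff] at hn
      exact p.isPrime.ne_top hn
    · apply h2
      exact_mod_cast hm
    · apply h6
      have h3 : (6 : 𝓞 k) = 2 * 3 := by norm_num
      rw [h3]
      exact p.asIdeal.mul_mem_left _ (by exact_mod_cast hm)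
    · have h4 : (2 : 𝓞 k) * 2 ∈ p.asIdeal := by
        have h3 : (2 : 𝓞 k) * 2 = ((4 : ℕ) : 𝓞 k) := by norm_num
        rw [h3]
        exact hm
      rcases p.isPrime.mem_or_mem h4 with h | h
      · exact h2 h
      · exact h2 h
  rw [np]
  exact_mod_cast h5

/-- the residues `m` such that `-m` is not a nonzero square -/
def TT (p : HeightOneSpectrum (𝓞 k)) : Set (𝓞 k) :=
  {m : 𝓞 k | ¬ ∃ x : 𝓞 k, x ∉ p.asIdeal ∧ x ^ 2 + m ∈ p.asIdeal}

theorem tt_congr (p : HeightOneSpectrum (𝓞 k)) (m m' : 𝓞 k) (hm : m ∈ TT p)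
    (h : m - m' ∈ p.asIdeal) : m' ∈ TT p := by
  rintro ⟨x, hx, hx2⟩
  refine hm ⟨x, hx, ?_⟩
  have h1 : x ^ 2 + m = (x ^ 2 + m') + (m - m') := by ring
  rw [h1]
  exact p.asIdeal.add_mem hx2 h

theorem ncard_unit (I : Ideal (𝓞 k)) (A : Set (𝓞 k)) :
    ((fun (v : Unit → 𝓞 k) (i : Unit) => Ideal.Quotient.mk I (v i)) '' {v | v () ∈ A}).ncard =
      (Ideal.Quotient.mk I '' A).ncard := by
  have h1 : ((fun (v : Unit → 𝓞 k) (i : Unit) => Ideal.Quotient.mk I (v i)) ''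
      {v | v () ∈ A}) = (fun (g : 𝓞 k ⧸ I) (_ : Unit) => g) '' (Ideal.Quotient.mk I '' A) := by
    ext g
    constructor
    · rintro ⟨v, hv, rfl⟩
      refine ⟨_, ⟨v (), hv, rfl⟩, ?_⟩
      funext i
      rfl
    · rintro ⟨_, ⟨m, hm, rfl⟩, rfl⟩
      exact ⟨fun _ => m, hm, rfl⟩
  rw [h1]
  refine Set.ncard_image_of_injective _ ?_
  intro g g' h
  exact congrFun h ()

theorem ncard_congr (J J' : Ideal (𝓞 k)) (h : J = J') (A : Set (𝓞 k)) :
    (Ideal.Quotient.mk J '' A).ncard = (Ideal.Quotient.mk J' '' A).ncard := by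
  subst h
  rfl

/-- The proportion of the residue classes. -/
theorem ratio (hsqc : SqcStmt) (hcrd : Pool.Agent.LeoD.CrdStmt)
    (Q : Finset (HeightOneSpectrum (𝓞 k))) (h6 : ∀ p ∈ Q, (6 : 𝓞 k) ∉ p.asIdeal) :
    ((Ideal.Quotient.mk (∏ p ∈ Q, p.asIdeal ^ 1) '' {m | ∀ p ∈ Q, m ∈ TT p}).ncard : ℝ) ≤
      (3 / 5) ^ Q.card * (Ideal.absNorm (∏ p ∈ Q, p.asIdeal ^ 1) : ℝ) := by
  have h1 := hcrd k Q (fun _ => 1) Unit (fun p => {v : Unit → 𝓞 k | v () ∈ TT p})
    (by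
      intro p _ v hv v' h
      have h2 := h ()
      rw [pow_one] at h2
      exact tt_congr p _ _ hv h2)
  have h2 : {v : Unit → 𝓞 k | ∀ p ∈ Q, v ∈ {v : Unit → 𝓞 k | v () ∈ TT p}} =
      {v | v () ∈ {m | ∀ p ∈ Q, m ∈ TT p}} := rfl
  rw [h2, ncard_unit] at h1
  rw [h1, map_prod]
  push_cast
  rw [← Finset.prod_const, ← Finset.prod_mul_distrib]
  refine Finset.prod_le_prod (fun _ _ => by positivity) fun p hp => ?_
  rw [ncard_unit, ncard_congr _ _ (pow_one _), pow_one]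
  have h3 := hsqc k p (by
    intro h
    apply h6 p hp
    have h3 : (6 : 𝓞 k) = 3 * 2 := by norm_num
    rw [h3]
    exact p.asIdeal.mul_mem_left _ h)
  have h4 := five_le_np p (h6 p hp)
  have h5 : np p = (Ideal.absNorm p.asIdeal : ℝ) := rfl
  rw [← h5]
  have h6' : (2 : ℝ) * ((Ideal.Quotient.mk p.asIdeal '' TT p).ncard : ℝ) ≤ np p + 1 := h3
  linarith

/-- The integers of the cone of bounded norm. -/
theorem cone_finite (hevs : EvsStmt) (Φ : CFrame k) (Z : ℝ) :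
    {m : 𝓞 k | av (mixedEmbedding k (m : k)) ∈ Φ.F ∧
      nr (av (mixedEmbedding k (m : k))) ≤ Z}.Finite := by
  obtain ⟨-, -, -, -, -, -, -, hav, -⟩ := hevs k
  refine (Pool.Agent.LeoC.H21.finite_le k (|Φ.cF| * max 1 Z)).subset ?_
  rintro m ⟨hF, hZ⟩ w
  rw [InfinitePlace.norm_embedding_eq]
  obtain ⟨x, hx⟩ : ∃ x : PS k, x = av (mixedEmbedding k (m : k)) := ⟨_, rfl⟩
  rw [← hx] at hF hZ
  have hw : w (m : k) = x w := by rw [hx, hav]
  rw [hw]
  have hpos := Φ.pos x hF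
  have hcmp := Φ.cmp x hF
  have hcF : 0 < Φ.cF := by
    have h1 := hcmp w w
    have h2 := hpos w
    by_contra hc
    rw [not_lt] at hc
    nlinarith
  rw [abs_of_pos hcF]
  by_contra hc
  rw [not_le] at hc
  obtain ⟨M, hM⟩ : ∃ M : ℝ, M = max 1 Z := ⟨_, rfl⟩
  rw [← hM] at hc
  have hM1 : 1 ≤ M := by rw [hM]; exact le_max_left _ _
  have hMZ : Z ≤ M := by rw [hM]; exact le_max_right _ _
  have h1 : ∀ v, M < x v := by
    intro v
    have h2 := hcmp w v
    by_contra h3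
    rw [not_lt] at h3
    have h4 : Φ.cF * x v ≤ Φ.cF * M := mul_le_mul_of_nonneg_left h3 hcF.le
    linarith
  have h2 : M < nr x := by
    rw [nr]
    have h3 : ∏ v : InfinitePlace k, (if v = w then M else 1) ≤ ∏ v, x v ^ v.mult := by
      refine Finset.prod_le_prod (fun v _ => ?_) fun v _ => ?_
      · by_cases h : v = w
        · rw [if_pos h]; linarith
        · rw [if_neg h]; norm_num
      · have h4 : (1 : ℝ) ≤ x v := by linarith [h1 v]
        by_cases h : v = w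
        · rw [if_pos h]
          calc M ≤ x v := (h1 v).le
            _ = x v ^ 1 := (pow_one _).symm
            _ ≤ x v ^ v.mult := pow_le_pow_right₀ h4 v.mult_pos
        · rw [if_neg h]
          exact one_le_pow₀ h4
    rw [Finset.prod_ite_eq' Finset.univ w] at h3
    rw [if_pos (Finset.mem_univ w)] at h3
    refine lt_of_le_of_ne h3 ?_
    intro heq
    -- strictness
    have h5 : ∏ v : InfinitePlace k, (if v = w then x w else 1) ≤ ∏ v, x v ^ v.mult := by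
      refine Finset.prod_le_prod (fun v _ => ?_) fun v _ => ?_
      · by_cases h : v = w
        · rw [if_pos h]; exact (hpos w).le
        · rw [if_neg h]; norm_num
      · have h4 : (1 : ℝ) ≤ x v := by linarith [h1 v]
        by_cases h : v = w
        · rw [if_pos h, h]
          rw [h] at h4
          calc x w = x w ^ 1 := (pow_one _).symm
            _ ≤ x w ^ w.mult := pow_le_pow_right₀ h4 w.mult_pos
        · rw [if_neg h]
          exact one_le_pow₀ h4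
    rw [Finset.prod_ite_eq' Finset.univ w, if_pos (Finset.mem_univ w), ← heq] at h5
    linarith [h1 w]
  linarith

/-- KCR. -/
theorem kcr (hcnt : Pool.Agent.LeoC.CntStmt) (hadc : AdcStmt) (hfra : Pool.Agent.LeoC.FraStmt) (hevs : EvsStmt)
    (hnsp : NspStmt) (hsqc : SqcStmt) (hcrd : Pool.Agent.LeoD.CrdStmt) : KcrStmt := by
  intro k _ _ N q hq h6
  obtain ⟨Φ⟩ := hfra k
  obtain ⟨hfin, ⟨c, hc, hlow⟩, hbad⟩ := hcnt k Φ N
  have hevs' := hevs k
  obtain ⟨-, -, -, -, -, -, -, hav, hnr⟩ := hevs'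
  obtain ⟨A, hA, hnsp⟩ := hnsp k Φ
  obtain ⟨r, hr⟩ := exists_pow_lt_of_lt_one (show (0 : ℝ) < c / (8 * A) by positivity)
    (show (3 / 5 : ℝ) < 1 by norm_num)
  have hr' : A * (3 / 5 : ℝ) ^ r ≤ c / 8 := by
    have h1 : A * (3 / 5 : ℝ) ^ r ≤ A * (c / (8 * A)) := mul_le_mul_of_nonneg_left hr.le hA.le
    refine h1.trans (le_of_eq ?_)
    field_simp
  obtain ⟨Q, hQ⟩ : ∃ Q : Finset (HeightOneSpectrum (𝓞 k)), Q = (Finset.range r).image q :=
    ⟨_, rfl⟩
  have hQcard : Q.card = r := by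
    rw [hQ, Finset.card_image_of_injective _ hq, Finset.card_range]
  have hQ6 : ∀ p ∈ Q, (6 : 𝓞 k) ∉ p.asIdeal := by
    intro p hp
    rw [hQ, Finset.mem_image] at hp
    obtain ⟨i, -, rfl⟩ := hp
    exact h6 i
  obtain ⟨I, hI⟩ : ∃ I : Ideal (𝓞 k), I = ∏ p ∈ Q, p.asIdeal ^ 1 := ⟨_, rfl⟩
  have hI0 : I ≠ ⊥ := by
    rw [hI]
    refine Finset.prod_ne_zero_iff.2 ?_
    intro p _
    exact pow_ne_zero _ p.ne_bot
  have hNI : (0 : ℝ) < (Ideal.absNorm I : ℝ) := by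
    have h1 : Ideal.absNorm I ≠ 0 := by
      rw [Ne, Ideal.absNorm_eq_zero_iff]
      exact hI0
    exact_mod_cast Nat.pos_of_ne_zero h1
  have hrat := ratio hsqc hcrd Q hQ6
  rw [← hI, hQcard] at hrat
  have hnsp' := hnsp I hI0 (Ideal.Quotient.mk I '' {m | ∀ p ∈ Q, m ∈ TT p})
  have : Fintype (Units.torsion k) := Fintype.ofFinite _
  obtain ⟨W, hWdef⟩ : ∃ W : ℕ, W = Fintype.card (Units.torsion k) := ⟨_, rfl⟩
  have hW : 0 < W := by rw [hWdef]; exact Fintype.card_pos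
  have hWr : (0 : ℝ) < W := by exact_mod_cast hW
  refine ⟨r, c / (8 * W), by positivity, ?_⟩
  filter_upwards [hlow, hbad (1 / 4) (by norm_num), hnsp', eventually_gt_atTop 0] with
    Z h1 h2 h7 hZ
  obtain ⟨bad, hbaddef⟩ : ∃ bad : Set (𝓞 k), bad = {m | m ∈ Mset Φ N Z ∧
    ((∃ x : k, x ^ 2 = 3 * (m : k)) ∨ ∃ g : Q4 (𝓞 k), GIrr g ∧ mm g = m)} := ⟨_, rfl⟩
  obtain ⟨badr, hbadr⟩ : ∃ badr : Set (𝓞 k), badr = {m | m ∈ Mset Φ N Z ∧
    ∀ p ∈ Q, m ∈ TT p} := ⟨_, rfl⟩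
  rw [← hbaddef] at h2
  have hsub : bad ⊆ Mset Φ N Z := by
    rw [hbaddef]
    exact fun m hm => hm.1
  have hsubr : badr ⊆ Mset Φ N Z := by
    rw [hbadr]
    exact fun m hm => hm.1
  have hf := hfin Z
  have hcr : (badr.ncard : ℝ) ≤ c / 8 * Z := by
    have hbig : {m : 𝓞 k | Ideal.Quotient.mk I m ∈
        (Ideal.Quotient.mk I '' {m | ∀ p ∈ Q, m ∈ TT p}) ∧
        av (mixedEmbedding k (m : k)) ∈ Φ.F ∧
        nr (av (mixedEmbedding k (m : k))) ≤ Z}.Finite :=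
      (cone_finite hevs Φ Z).subset fun m hm => hm.2
    have h8 : badr.ncard ≤ {m : 𝓞 k | Ideal.Quotient.mk I m ∈
        (Ideal.Quotient.mk I '' {m | ∀ p ∈ Q, m ∈ TT p}) ∧
        av (mixedEmbedding k (m : k)) ∈ Φ.F ∧
        nr (av (mixedEmbedding k (m : k))) ≤ Z}.ncard := by
      refine Set.ncard_le_ncard ?_ hbig
      rw [hbadr]
      rintro m ⟨hm, hm2⟩
      exact ⟨⟨m, hm2, rfl⟩, hm.2.1, hm.2.2.1⟩
    have h9 : (badr.ncard : ℝ) ≤ A * (((Ideal.Quotient.mk I ''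
        {m | ∀ p ∈ Q, m ∈ TT p}).ncard : ℝ) / (Ideal.absNorm I : ℝ)) * Z :=
      le_trans (by exact_mod_cast h8) h7
    refine h9.trans ?_
    refine mul_le_mul_of_nonneg_right ?_ hZ.le
    refine le_trans ?_ hr'
    refine mul_le_mul_of_nonneg_left ?_ hA.le
    rw [div_le_iff₀ hNI]
    exact hrat
  have hfd : (Mset Φ N Z \ (bad ∪ badr)).Finite := hf.subset Set.sdiff_subset
  have hmem : ∀ m : 𝓞 k, m ∈ hfd.toFinset → m ∈ Mset Φ N Z ∧ m ∉ bad ∧ m ∉ badr := by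
    intro m hm
    rw [Set.Finite.mem_toFinset] at hm
    exact ⟨hm.1, fun h => hm.2 (Or.inl h), fun h => hm.2 (Or.inr h)⟩
  have hne : ∀ m : 𝓞 k, m ∈ Mset Φ N Z → m ≠ 0 := by
    rintro m ⟨-, hm, -⟩ rfl
    obtain ⟨v⟩ : Nonempty (InfinitePlace k) := inferInstance
    have := Φ.pos _ hm v
    rw [hav] at this
    simp at this
  have hcard : c / 8 * Z ≤ (hfd.toFinset.card : ℝ) := by
    rw [← Set.ncard_eq_toFinset_card _ hfd]
    have h3 : ((Mset Φ N Z \ (bad ∪ badr)).ncard : ℝ) =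
        (Mset Φ N Z).ncard - (bad ∪ badr).ncard := by
      have := Set.ncard_sdiff_add_ncard_of_subset (Set.union_subset hsub hsubr) hf
      have h4 : (((Mset Φ N Z \ (bad ∪ badr)).ncard + (bad ∪ badr).ncard : ℕ) : ℝ) =
          (Mset Φ N Z).ncard := by
        rw [this]
      push_cast at h4
      linarith
    rw [h3]
    have h4 : ((bad ∪ badr).ncard : ℝ) ≤ bad.ncard + badr.ncard := by
      exact_mod_cast Set.ncard_union_le bad badr
    have h5 : (1 : ℝ) / (2 * 3 ^ un N) ≤ 1 / 2 := by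
      apply one_div_le_one_div_of_le (by norm_num)
      have : (1 : ℝ) ≤ 3 ^ un N := one_le_pow₀ (by norm_num)
      linarith
    have h6 : (0 : ℝ) ≤ ((Mset Φ N Z).ncard : ℝ) := by positivity
    nlinarith
  obtain ⟨S, hST, hS, hcS⟩ := Pool.Agent.LeoC.H9.select hfd.toFinset
    (fun m m' => IsSquare ((m : k) * m'))
    (fun a b h => by rwa [mul_comm] at h) W (by
      intro s hs
      have hsM := (hmem s hs).1
      refine (Finset.card_le_card (t := Finset.univ.image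
        fun η : Units.torsion k => (((η : (𝓞 k)ˣ) : 𝓞 k)) ^ 2 * s) ?_).trans ?_
      · intro t ht
        rw [Finset.mem_filter] at ht
        have htM := (hmem t ht.1).1
        obtain ⟨η, hη, h⟩ := Pool.Agent.LeoC.H9.torsion_of_sq hevs Φ s t (hne s hsM)
          (hne t htM) hsM.2.1 htM.2.1 hsM.2.2.2.2 htM.2.2.2.2 ht.2
        rw [Finset.mem_image]
        exact ⟨⟨η, hη⟩, Finset.mem_univ _, h.symm⟩
      · exact Finset.card_image_le.trans (le_of_eq (by rw [Finset.card_univ, hWdef])))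
    (fun s _ => ⟨(s : k), rfl⟩)
  refine ⟨S, ?_, ?_, ?_⟩
  · have h3 : (hfd.toFinset.card : ℝ) ≤ S.card * W := by exact_mod_cast hcS
    have h4 : c / 8 * Z ≤ S.card * W := hcard.trans h3
    have h5 : c / (8 * W) * Z = (c / 8 * Z) / W := by
      field_simp
    rw [h5, div_le_iff₀ hWr]
    exact h4
  · intro m hm
    obtain ⟨hm, hmb, hmr⟩ := hmem m (hST hm)
    have hm0 := hne m hm
    have hm2 := hm
    obtain ⟨hsg, hF, hZm, htwo, hloc⟩ := hm
    rw [hbaddef] at hmb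
    rw [hbadr] at hmr
    refine ⟨?_, hsg, ?_, ?_, ?_⟩
    · apply hadc k m hloc htwo
      intro x hx
      exact hmb ⟨hm2, Or.inl ⟨x, hx⟩⟩
    · have h3 := (hnr m hm0).2
      rw [Ideal.absNorm_span_singleton] at h3
      rw [← h3]
      exact hZm
    · intro h3
      exact hmb ⟨hm2, Or.inr h3⟩
    · by_contra h3
      refine hmr ⟨hm2, ?_⟩
      intro p hp
      rw [hQ, Finset.mem_image] at hp
      obtain ⟨i, hi, rfl⟩ := hp
      rintro ⟨x, hx, hx2⟩
      exact h3 ⟨i, Finset.mem_range.1 hi, x, hx, hx2⟩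
  · intro m hm m' hm' hsq
    exact hS m hm m' hm' hsq

end Pool.Agent.LeoT.H65
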